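import Pool.Agent.MP_405a2c_gt.Main

namespace Pool.Agent.Results.MP_405a2c_gt.Counterexample

open Pool.Agent.MP_405a2c_gt

/-- There is a group ideal whose ballean is normal but which has no linearly ordered base. -/
theorem result : ∃ (G : Type) (_ : Group G) (I : Set (Set G)),
    IsGroupIdeal I ∧ IsNormalBallean (entourage '' I) ∧ ¬ HasLinearBase I :=
  exists_counterexample

end Pool.Agent.Results.MP_405a2c_gt.Counterexample
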